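import Pool.Agent.NRW.Targets
import Pool.Agent.NRU.Main4

/-!
# The number of reconstructions: all parts, with the list theorem
-/

set_option autoImplicit false

open Finset Classical

namespace Pool.Agent.NRW

open Pool.Agent

theorem all_five (h_UFN : NRU.T_UFN) (h_SMO : NRV.T_SMO) (h_LFT : T_LFT) : ∃ C : ℝ, 0 < C ∧
    (∀ n t : ℕ, 3 ≤ n → ∀ (F : Fin t → SimpleGraph (Fin (n - 1))) (ι : Type) [Fintype ι]
      (H : ι → SimpleGraph (Fin n)),
      (∀ i, ¬ HER47.Rec (H i)) →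
      (∀ i, ∀ v : Fin n, ∃ j : Fin t,
        Nonempty ({s : Finset (Fin n) // s.Nonempty ∧ (H i).IsClique (s : Set (Fin n)) ∧ v ∉ s} ≃o
          {s : Finset (Fin (n - 1)) // s.Nonempty ∧
            (F j).IsClique (s : Set (Fin (n - 1)))})) →
      (∀ i j, i ≠ j →
        ¬ Nonempty ({s : Finset (Fin n) // s.Nonempty ∧ (H i).IsClique (s : Set (Fin n))} ≃o
          {s : Finset (Fin n) // s.Nonempty ∧ (H j).IsClique (s : Set (Fin n))})) →
      (Fintype.card ι : ℝ) ≤ t * (n : ℝ) ^ C) ∧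
    (∀ (V : Type) [Fintype V] (G : SimpleGraph V), 3 ≤ Fintype.card V → ∀ m : ℝ,
      (C ≤ m ∨
      (∃ D : ℕ, 16 * (Real.logb 2 D) ^ 2 ≤ m ∧
        ((∀ v, (G.neighborSet v).ncard ≤ D) ∨ ∀ v, (Gᶜ.neighborSet v).ncard ≤ D)) ∨
      (1 ≤ m ∧ ∃ u v, u ≠ v ∧
        ({w : V | w ≠ u ∧ w ≠ v ∧ ¬ (G.Adj w u ↔ G.Adj w v)}.ncard : ℝ) ≤ m)) →
      ∀ (ι : Type) [Fintype ι] (W : ι → Type) [∀ i, Fintype (W i)] (H : ∀ i, SimpleGraph (W i))
      (f : ∀ i, V ≃ W i),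
      (∀ i, ∀ v : V,
        Nonempty ({s : Finset V // s.Nonempty ∧ G.IsClique (s : Set V) ∧ v ∉ s} ≃o
          {t : Finset (W i) // t.Nonempty ∧ (H i).IsClique (t : Set (W i)) ∧ f i v ∉ t})) →
      (∀ i j, i ≠ j →
        ¬ Nonempty ({s : Finset (W i) // s.Nonempty ∧ (H i).IsClique (s : Set (W i))} ≃o
          {t : Finset (W j) // t.Nonempty ∧ (H j).IsClique (t : Set (W j))})) →
      (Fintype.card ι : ℝ) ≤ (Fintype.card V : ℝ) ^ (m + 3)) ∧
    (∀ (V : Type) [Fintype V] (G : SimpleGraph V), 3 ≤ Fintype.card V →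
      ((∃ D : ℕ, 2 ≤ D ∧
        ((∀ v, (G.neighborSet v).ncard ≤ D) ∨ ∀ v, (Gᶜ.neighborSet v).ncard ≤ D) ∧
        ∀ u v, u ≠ v → C * Real.logb 2 D ≤
          ({w : V | w ≠ u ∧ w ≠ v ∧ ¬ (G.Adj w u ↔ G.Adj w v)}.ncard : ℝ)) ∨
      (∃ Y : Finset V, C * Real.logb 2 (Fintype.card V) * Y.card ≤ Fintype.card V ∧
        ∀ u v, u ∉ Y → v ∉ Y → u ≠ v → C * Real.logb 2 (Fintype.card V) ≤
          ({w : V | w ≠ u ∧ w ≠ v ∧ ¬ (G.Adj w u ↔ G.Adj w v)}.ncard : ℝ))) →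
      HER47.Rec G) ∧
    (∀ (V : Type) [Fintype V] (H : SimpleGraph V) (S : Finset V), 3 ≤ Fintype.card V →
      C * Real.logb 2 (Fintype.card V) ≤ S.card →
      ({G : SimpleGraph V | (∀ x y, x ∉ S → y ∉ S → (G.Adj x y ↔ H.Adj x y)) ∧
          ¬ HER47.Rec G}.ncard : ℝ) ≤ (2 : ℝ) ^ (-(S.card : ℝ) / 2) *
        {G : SimpleGraph V | ∀ x y, x ∉ S → y ∉ S → (G.Adj x y ↔ H.Adj x y)}.ncard) := by
  obtain ⟨C1, hC1, h1, h2, h3⟩ := NRU.all_four h_UFN h_SMO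
  obtain ⟨A, h0⟩ := h_LFT
  refine ⟨C1 + A, by positivity, ?_, ?_, ?_, ?_⟩
  · intro n t hn F ι _ H hrec hlist hne
    obtain ⟨m, rfl⟩ : ∃ m, n = m + 1 := ⟨n - 1, by omega⟩
    have h := h0 m (Fin t) ι F H (by omega) hrec hlist hne
    rw [Fintype.card_fin] at h
    have hR : (Fintype.card ι : ℝ) ≤ (t : ℝ) * ((m + 1 : ℕ) : ℝ) ^ (A : ℝ) := by
      rw [Real.rpow_natCast]
      exact_mod_cast h
    refine hR.trans (mul_le_mul_of_nonneg_left ?_ (Nat.cast_nonneg _))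
    refine Real.rpow_le_rpow_of_exponent_le ?_ (by linarith)
    exact_mod_cast (by omega : 1 ≤ m + 1)
  · intro V _ G hn m hm
    refine h1 V G hn m ?_
    rcases hm with hm | hm | hm
    · left
      have : (0 : ℝ) ≤ A := Nat.cast_nonneg _
      linarith
    · exact Or.inr (Or.inl hm)
    · exact Or.inr (Or.inr hm)
  · intro V _ G hn hG
    have hA : (0 : ℝ) ≤ A := Nat.cast_nonneg _
    have hnR : (3 : ℝ) ≤ Fintype.card V := by exact_mod_cast hn
    have hlog : 0 ≤ Real.logb 2 (Fintype.card V) := Real.logb_nonneg (by norm_num) (by linarith)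
    have hCl : C1 * Real.logb 2 (Fintype.card V) ≤ (C1 + A) * Real.logb 2 (Fintype.card V) :=
      mul_le_mul_of_nonneg_right (by linarith) hlog
    refine h2 V G hn ?_
    rcases hG with ⟨D, hD, hdeg, hd⟩ | ⟨Y, hY, hd⟩
    · left
      have hDR : (2 : ℝ) ≤ D := by exact_mod_cast hD
      have hlogD : 0 ≤ Real.logb 2 D := Real.logb_nonneg (by norm_num) (by linarith)
      refine ⟨D, hD, hdeg, fun u v huv => le_trans ?_ (hd u v huv)⟩
      exact mul_le_mul_of_nonneg_right (by linarith) hlogD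
    · right
      refine ⟨Y, ?_, fun u v hu hv huv => hCl.trans (hd u v hu hv huv)⟩
      exact le_trans (mul_le_mul_of_nonneg_right hCl (Nat.cast_nonneg _)) hY
  · intro V _ H S hn hS
    have hA : (0 : ℝ) ≤ A := Nat.cast_nonneg _
    have hnR : (3 : ℝ) ≤ Fintype.card V := by exact_mod_cast hn
    have hlog : 0 ≤ Real.logb 2 (Fintype.card V) := Real.logb_nonneg (by norm_num) (by linarith)
    have hCl : C1 * Real.logb 2 (Fintype.card V) ≤ (C1 + A) * Real.logb 2 (Fintype.card V) :=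
      mul_le_mul_of_nonneg_right (by linarith) hlog
    exact h3 V H S hn (hCl.trans hS)

end Pool.Agent.NRW
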