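import Pool.Agent.NRW.Targets
import Pool.Agent.NRR.Final

/-!
# Hereditary classes: labelled graphs and isomorphism types
-/

set_option autoImplicit false

open Finset Classical

namespace Pool.Agent.NRW

open Pool.Agent

theorem final_five (h_SUR : NRR.T_SUR) (h_INR : NRR.T_INR) (h_BN1 : NRR.T_BN1)
    (h_HCU : T_HCU) (h_HIU : T_HIU) : ∃ A : ℝ, 0 < A ∧
    (∀ C : HER47.Cls, HER47.Her C → ∀ n : ℕ, 2 ≤ n →
      (HER47.bn C n : ℝ) ≤ (n : ℝ) ^ A * (HER47.cn C (n - 1) : ℝ)) ∧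
    (∀ C : HER47.Cls, HER47.Her C → ∀ n : ℕ, 3 ≤ n →
      ((btyp C n).ncard : ℝ) ≤ (n : ℝ) ^ A * ((typ C (n - 1)).ncard : ℝ)) ∧
    (∀ C : HER47.Cls, HER47.Her C →
      ((∀ (V W : Type) [Finite V] [Finite W] (G : SimpleGraph V) (H : SimpleGraph W),
        C V G → C W H → C (V ⊕ W) (G ⊕g H)) ∨
      (∀ (V W : Type) [Finite V] [Finite W] (G : SimpleGraph V) (H : SimpleGraph W),
        C V G → C W H → C (V ⊕ W) ((Gᶜ ⊕g Hᶜ)ᶜ))) →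
      (∃ N : ℕ, ∀ n : ℕ, N ≤ n → NRR.Big3 A C n) → ∃ N : ℕ, ∀ n : ℕ, N ≤ n →
        (2 : ℝ) ^ ((n : ℝ) / Real.logb 2 n ^ 3) * (HER47.bn C n : ℝ) ≤ (HER47.cn C n : ℝ)) ∧
    (∀ C : HER47.Cls, HER47.Her C → (∀ N : ℕ, ∃ n : ℕ, N ≤ n ∧ NRR.Big3 A C n) →
      ∀ N : ℕ, ∃ n : ℕ, N ≤ n ∧
        (2 : ℝ) ^ ((n : ℝ) / Real.logb 2 n ^ 3) * (HER47.bn C n : ℝ) ≤
          (HER47.cn C n : ℝ)) ∧
    (∀ (B : ℕ) (C : HER47.Cls), HER47.Her C →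
      (∀ N : ℕ, ∃ n : ℕ, N ≤ n ∧ NRR.Big3 (A + B) C n) →
      ∀ N : ℕ, ∃ n : ℕ, N ≤ n ∧ n ^ B * (btyp C n).ncard ≤ (typ C n).ncard) := by
  obtain ⟨A1, h1, h2, h3, h4⟩ := NRR.final_three h_SUR h_INR h_BN1
  obtain ⟨A2, h5⟩ := h_HCU
  obtain ⟨A3, h6⟩ := h_HIU
  have k2 : (0 : ℝ) ≤ A2 := Nat.cast_nonneg _
  have k3 : (0 : ℝ) ≤ A3 := Nat.cast_nonneg _
  have hle : A1 ≤ A1 + A2 + A3 := by linarith
  refine ⟨A1 + A2 + A3, by positivity, ?_, ?_, ?_, ?_, ?_⟩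
  · intro C hC n hn
    refine (h2 C hC n hn).trans (mul_le_mul_of_nonneg_right ?_ (Nat.cast_nonneg _))
    refine Real.rpow_le_rpow_of_exponent_le ?_ hle
    exact_mod_cast (by omega : 1 ≤ n)
  · intro C hC n hn
    obtain ⟨m, rfl⟩ : ∃ m, n = m + 1 := ⟨n - 1, by omega⟩
    have h := h5 C hC m (by omega)
    rw [Nat.add_sub_cancel]
    have h' : ((btyp C (m + 1)).ncard : ℝ) ≤ ((m + 1 : ℕ) : ℝ) ^ (A2 : ℝ) *
        ((typ C m).ncard : ℝ) := by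
      rw [Real.rpow_natCast]
      exact_mod_cast h
    refine h'.trans (mul_le_mul_of_nonneg_right ?_ (Nat.cast_nonneg _))
    refine Real.rpow_le_rpow_of_exponent_le ?_ (by linarith)
    exact_mod_cast (by omega : 1 ≤ m + 1)
  · intro C hC hU hB
    obtain ⟨N, hN⟩ := hB
    exact h3 C hC hU ⟨N, fun n hn => NRR.Big3_mono hle (hN n hn)⟩
  · intro C hC hB
    refine h4 C hC fun N => ?_
    obtain ⟨n, hn, h⟩ := hB N
    exact ⟨n, hn, NRR.Big3_mono hle h⟩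
  · intro B C hC hB
    refine h6 B C hC fun N => ?_
    obtain ⟨n, hn, h⟩ := hB N
    refine ⟨n, hn, ?_⟩
    have h7 : NRR.Big3 (((A3 + B : ℕ) : ℝ)) C n := by
      refine NRR.Big3_mono ?_ h
      push_cast
      linarith
    unfold NRR.Big3 at h7
    have e : (n : ℝ) ^ (((A3 + B : ℕ) : ℝ) * n) = (n : ℝ) ^ ((A3 + B) * n) := by
      rw [← Real.rpow_natCast]
      push_cast
      ring_nf
    rw [e] at h7
    exact_mod_cast h7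

end Pool.Agent.NRW
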