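import Pool.Agent.NRW.Targets
import Pool.Agent.NRC.P_AVG

set_option autoImplicit false

/-!
# NRW: averaging over the nets for graphs whose cards are in a list
-/

open Finset Classical

namespace Pool.Agent.NRW

open Pool.Agent Pool.Agent.Lib.Recon Pool.Agent.RNB Pool.Agent.NRC Pool.Agent.NRP Pool.Agent.NRQ

theorem p_AVS : T_AVS := by
  intro V ι J _ _ _ G v0 H N B P hN hyp hne hP hB hcount
  have hV : Nonempty V := ⟨v0⟩
  -- the most frequent vertex for each graph
  have h1 : ∀ i, ∃ v, Fintype.card (Fin N × (Fin N → V)) ≤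
      2 * (Fintype.card V * (univ.filter (fun p : Fin N × (Fin N → V) =>
        P (H i) (Bi ∅ p.2 p.1) v)).card) := by
    intro i
    obtain ⟨v, hv⟩ := Pool.Agent.NRC.AVG_.pigeon
      (fun (p : Fin N × (Fin N → V)) v => P (H i) (Bi ∅ p.2 p.1) v) _
      (fun p hp => (Finset.mem_filter.mp hp).2)
    exact ⟨v, (hcount i).trans (Nat.mul_le_mul_left 2 hv)⟩
  choose v hv using h1
  have h2 : ∀ i, ∃ j : J, ∃ σ : V ≃ V, σ (v i) = v0 ∧
      ∀ x y, x ≠ v i → y ≠ v i → ((H i).Adj x y ↔ (G j).Adj (σ x) (σ y)) := by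
    intro i
    obtain ⟨j, hj⟩ := hyp i (v i)
    exact ⟨j, hj.symm⟩
  choose c σ hσv hσ using h2
  -- the graphs `K i`
  obtain ⟨K, hK⟩ : ∃ K : ι → SimpleGraph V, ∀ i x y,
      ((H i).Adj x y ↔ (K i).Adj (σ i x) (σ i y)) := by
    refine ⟨fun i => (H i).comap (σ i).symm, fun i x y => ?_⟩
    rw [SimpleGraph.comap_adj, Equiv.symm_apply_apply, Equiv.symm_apply_apply]
  have hKG : ∀ i x y, x ≠ v0 → y ≠ v0 → ((K i).Adj x y ↔ (G (c i)).Adj x y) := by
    intro i x y hx hy
    have hx' : (σ i).symm x ≠ v i := fun h => hx (by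
      rw [← hσv i, ← h, Equiv.apply_symm_apply])
    have hy' : (σ i).symm y ≠ v i := fun h => hy (by
      rw [← hσv i, ← h, Equiv.apply_symm_apply])
    have h3 := hσ i _ _ hx' hy'
    have h4 := hK i ((σ i).symm x) ((σ i).symm y)
    rw [Equiv.apply_symm_apply, Equiv.apply_symm_apply] at h3 h4
    exact h4.symm.trans h3
  have hinj : Function.Injective K := by
    intro i j hij
    by_contra hij'
    refine hne i j hij' ⟨(σ i).trans (σ j).symm, fun x y => ?_⟩
    rw [hK i, hij, hK j, Equiv.trans_apply, Equiv.trans_apply, Equiv.apply_symm_apply,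
      Equiv.apply_symm_apply]
  -- transport of the nets
  have h3 : ∀ i, (univ.filter (fun p : Fin N × (Fin N → V) =>
      P (H i) (Bi ∅ p.2 p.1) (v i))).card ≤
      (univ.filter (fun p : Fin N × (Fin N → V) =>
        P (K i) (Bi ∅ p.2 p.1) v0)).card := by
    intro i
    refine Finset.card_le_card_of_injOn
      (fun p : Fin N × (Fin N → V) => (p.1, fun j => σ i (p.2 j))) ?_ ?_
    · intro p hp
      have hp' := (Finset.mem_filter.mp (Finset.mem_coe.mp hp)).2
      have h4 := hP (H i) (K i) (σ i) _ (v i) (hK i) hp'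
      rw [hσv i, Pool.Agent.NRC.AVG_.image_Bi] at h4
      exact Finset.mem_coe.mpr (Finset.mem_filter.mpr ⟨mem_univ _, h4⟩)
    · intro p _ p' _ h
      have h' : ((p.1, fun j => σ i (p.2 j)) : Fin N × (Fin N → V)) =
        (p'.1, fun j => σ i (p'.2 j)) := h
      obtain ⟨ha, hb⟩ := Prod.mk.inj h'
      refine Prod.ext ha (funext fun j => (σ i).injective ?_)
      exact congrFun hb j
  -- the number of graphs for a fixed net
  have h5 : ∀ p : Fin N × (Fin N → V), (univ.filter (fun i =>
      P (K i) (Bi ∅ p.2 p.1) v0)).card ≤ B * Fintype.card J := by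
    intro p
    have h6 := Finset.card_le_mul_card_image_of_maps_to (f := c)
      (s := univ.filter (fun i => P (K i) (Bi ∅ p.2 p.1) v0))
      (t := (univ : Finset J)) (fun i _ => mem_univ _) B ?_
    · rwa [Finset.card_univ] at h6
    · intro t _
      refine le_trans ?_ (hB (G t) (Bi ∅ p.2 p.1) v0)
      refine Finset.card_le_card_of_injOn K ?_ (fun i _ j _ h => hinj h)
      intro i hi
      obtain ⟨hi1, hi2⟩ := Finset.mem_filter.mp (Finset.mem_coe.mp hi)
      have hi3 := (Finset.mem_filter.mp hi1).2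
      refine Finset.mem_coe.mpr (Finset.mem_filter.mpr ⟨mem_univ _, ?_, hi3⟩)
      intro x y hx hy
      rw [← hi2]
      exact hKG i x y hx hy
  -- double counting
  have h7 : ∑ i, (univ.filter (fun p : Fin N × (Fin N → V) =>
      P (K i) (Bi ∅ p.2 p.1) v0)).card =
      ∑ p : Fin N × (Fin N → V), (univ.filter (fun i =>
        P (K i) (Bi ∅ p.2 p.1) v0)).card := by
    simp only [Finset.card_filter]
    exact Finset.sum_comm
  have hΩ : 0 < Fintype.card (Fin N × (Fin N → V)) :=
    Fintype.card_pos_iff.mpr ⟨(⟨0, hN⟩, fun _ => Classical.arbitrary V)⟩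
  refine Nat.le_of_mul_le_mul_right ?_ hΩ
  calc Fintype.card ι * Fintype.card (Fin N × (Fin N → V))
      = ∑ _i : ι, Fintype.card (Fin N × (Fin N → V)) := by
        rw [Finset.sum_const, Finset.card_univ, smul_eq_mul]
    _ ≤ ∑ i : ι, 2 * (Fintype.card V * (univ.filter (fun p : Fin N × (Fin N → V) =>
          P (K i) (Bi ∅ p.2 p.1) v0)).card) :=
        Finset.sum_le_sum fun i _ => (hv i).trans
          (Nat.mul_le_mul_left 2 (Nat.mul_le_mul_left _ (h3 i)))
    _ = 2 * (Fintype.card V * ∑ i : ι, (univ.filter (fun p : Fin N × (Fin N → V) =>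
          P (K i) (Bi ∅ p.2 p.1) v0)).card) := by
        rw [← Finset.mul_sum, ← Finset.mul_sum]
    _ ≤ 2 * (Fintype.card V * ∑ _p : Fin N × (Fin N → V), B * Fintype.card J) := by
        rw [h7]
        exact Nat.mul_le_mul_left 2 (Nat.mul_le_mul_left _
          (Finset.sum_le_sum fun p _ => h5 p))
    _ = 2 * Fintype.card V * Fintype.card J * B * Fintype.card (Fin N × (Fin N → V)) := by
        rw [Finset.sum_const, Finset.card_univ, smul_eq_mul]
        ring

end Pool.Agent.NRW
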