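import Pool.Agent.NRW.Targets
import Pool.Agent.NRP.P_ALQ

/-!
# NRW: BNS (MP_552896_co), non-reconstructible graphs whose cards are in a given list
-/

set_option autoImplicit false

open Finset Classical

namespace Pool.Agent.NRW

open Pool.Agent Pool.Agent.Lib.Recon Pool.Agent.RNB Pool.Agent.NRC Pool.Agent.NRP Pool.Agent.NRQ

namespace BNS_

/-- numbers -/
theorem num {n a b J C : ℕ} (K : ℕ) (hn : 2 ≤ n) (ha : a ≤ 2 * J * n ^ (K + 1))
    (hb : b ≤ 2 * n * J * n ^ C) : a + b ≤ J * n ^ (K + C + 4) := by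
  have h0 : 0 < n := by omega
  have e1 : n ^ (K + 1) ≤ n ^ (K + C + 2) := Nat.pow_le_pow_right h0 (by omega)
  have e2 : n * n ^ C ≤ n ^ (K + C + 2) := by
    rw [← pow_succ']
    exact Nat.pow_le_pow_right h0 (by omega)
  have e3 : n ^ (K + C + 4) = n ^ 2 * n ^ (K + C + 2) := by
    rw [← pow_add]
    congr 1
    omega
  have e4 : 4 ≤ n ^ 2 := by nlinarith
  calc a + b ≤ 2 * J * n ^ (K + 1) + 2 * J * (n * n ^ C) := by
        refine add_le_add ha (hb.trans (le_of_eq ?_))
        ring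
    _ ≤ 2 * J * n ^ (K + C + 2) + 2 * J * n ^ (K + C + 2) :=
        add_le_add (Nat.mul_le_mul_left _ e1) (Nat.mul_le_mul_left _ e2)
    _ = J * (4 * n ^ (K + C + 2)) := by ring
    _ ≤ J * (n ^ 2 * n ^ (K + C + 2)) := Nat.mul_le_mul_left _ (Nat.mul_le_mul_right _ e4)
    _ = _ := by rw [e3]

end BNS_

open BNS_ in
/-- BNS -/
theorem p_BNS (h1 : T_AVS) (h2 : T_NES) (h3 : NRP.T_HLQ) (h4 : NRP.T_NBQ) (h5 : NRM.T_RCM)
    (h6 : NRQ.T_DCQ) (h7 : NRQ.T_EQQ) (h8 : NRQ.T_DC1) (h9 : NRQ.T_EQ1) : T_BNS := by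
  obtain ⟨n1, h3⟩ := h3
  obtain ⟨C, n2, h4⟩ := h4
  obtain ⟨n3, hp⟩ := Pool.Agent.NRC.p_NPA
  generalize hKK : (KK : ℕ) = K at h3
  obtain ⟨n0, hn0⟩ : ∃ n0 : ℕ, n0 = max (max n1 n2) (max n3 4) := ⟨_, rfl⟩
  refine ⟨max (K + C + 4) (n0 * n0), ?_⟩
  intro V ι J _ _ _ G v0 H hV hrec hin hne
  have hV1 : 1 ≤ Fintype.card V := by omega
  by_cases hbig : n0 ≤ Fintype.card V
  · rw [hn0] at hbig
    have hn1 : n1 ≤ Fintype.card V :=
      le_trans (le_trans (le_max_left _ _) (le_max_left _ _)) hbig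
    have hn2 : n2 ≤ Fintype.card V :=
      le_trans (le_trans (le_max_right _ _) (le_max_left _ _)) hbig
    have hn3 : n3 ≤ Fintype.card V :=
      le_trans (le_trans (le_max_left _ _) (le_max_right _ _)) hbig
    have hpN : 1 ≤ pN (Fintype.card V) := (hp _ hn3).1
    have hsplit : Fintype.card ι =
        Fintype.card {i : ι // ∃ u v, u ≠ v ∧ (dset (H i) u v).card ≤ K} +
        Fintype.card {i : ι // ¬ ∃ u v, u ≠ v ∧ (dset (H i) u v).card ≤ K} := by
      rw [← Fintype.card_sum]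
      exact Fintype.card_congr (Equiv.sumCompl _).symm
    have hA : Fintype.card {i : ι // ∃ u v, u ≠ v ∧ (dset (H i) u v).card ≤ K} ≤
        2 * Fintype.card J * Fintype.card V ^ (K + 1) :=
      h2 V _ J G v0 (fun i => H i.1) K (fun i => hin i.1)
        (fun i j hij => hne i.1 j.1 fun h => hij (Subtype.ext h)) fun i => i.2
    have hB : Fintype.card {i : ι // ¬ ∃ u v, u ≠ v ∧ (dset (H i) u v).card ≤ K} ≤
        2 * Fintype.card V * Fintype.card J * NN (Fintype.card V) := by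
      refine h1 V _ J G v0 (fun i => H i.1) (pN (Fintype.card V)) (NN (Fintype.card V))
        (fun K A v => Gq K A v) hpN (fun i => hin i.1)
        (fun i j hij => hne i.1 j.1 fun h => hij (Subtype.ext h)) ?_ ?_ ?_
      · rintro F F' σ A v hσ (h | h)
        · exact Or.inl (h9 V F F' σ _ _ A v hσ h)
        · exact Or.inr (h7 V F F' σ _ _ _ _ _ A v hσ h)
      · intro F A v
        refine le_trans (le_trans (card_le_card ?_) (card_union_le _ _))
          (add_le_add (h8 V F (pg (Fintype.card V)) (M1 (Fintype.card V)) A v)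
            (h6 V F (pg (Fintype.card V)) (pg (Fintype.card V)) (q2 (Fintype.card V))
              (d1 (Fintype.card V)) (M2 (Fintype.card V)) A v))
        intro F' hF'
        rw [mem_filter] at hF'
        obtain ⟨_, k1, k2⟩ := hF'
        rw [mem_union, mem_filter, mem_filter]
        rcases k2 with k2 | k2
        · exact Or.inl ⟨mem_univ _, k1, k2⟩
        · exact Or.inr ⟨mem_univ _, k1, k2⟩
      rintro ⟨i, hi⟩
      have hex : ∃ H' : SimpleGraph V, (∀ v, CardIso (H i) H' v v) ∧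
          ¬ ∃ α : V ≃ V, ∀ x y, (H i).Adj x y ↔ H'.Adj (α x) (α y) :=
        Classical.byContradiction fun hcon =>
          hrec i (h5 V (H i) hV fun H' hH' =>
            Classical.byContradiction fun hno => hcon ⟨H', hH', hno⟩)
      obtain ⟨H', hH', hno⟩ := hex
      refine h3 V (H i) H' hn1 hH' hno ?_
      intro u v huv
      by_contra hc'
      exact hi ⟨u, v, huv, (not_le.1 hc').le⟩
    rw [hsplit]
    refine (num K (by omega) hA (hB.trans (Nat.mul_le_mul_left _ (h4 _ hn2)))).trans ?_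
    exact Nat.mul_le_mul_left _ (Nat.pow_le_pow_right hV1 (le_max_left _ _))
  · rw [not_le] at hbig
    rcases isEmpty_or_nonempty ι with hι | ⟨⟨i⟩⟩
    · rw [Fintype.card_eq_zero]
      exact Nat.zero_le _
    obtain ⟨v⟩ : Nonempty V := Fintype.card_pos_iff.1 (by omega)
    obtain ⟨j, _⟩ := hin i v
    have hJ : 1 ≤ Fintype.card J := Fintype.card_pos_iff.2 ⟨j⟩
    calc Fintype.card ι ≤ 2 ^ (Fintype.card V * Fintype.card V) := NRP.ALQ_.card_le H hne
      _ ≤ 2 ^ (n0 * n0) :=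
        Nat.pow_le_pow_right (by norm_num) (Nat.mul_le_mul hbig.le hbig.le)
      _ ≤ 2 ^ max (K + C + 4) (n0 * n0) :=
        Nat.pow_le_pow_right (by norm_num) (le_max_right _ _)
      _ ≤ Fintype.card V ^ max (K + C + 4) (n0 * n0) := Nat.pow_le_pow_left (by omega) _
      _ = 1 * Fintype.card V ^ max (K + C + 4) (n0 * n0) := (one_mul _).symm
      _ ≤ _ := Nat.mul_le_mul_right _ hJ

end Pool.Agent.NRW
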