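import Pool.Agent.NRW.Targets

/-!
# NRW: counting copies (`T_CTY`)
-/

set_option autoImplicit false

open Finset Classical

namespace Pool.Agent.NRW

namespace CTY_

/-- the class of `G` -/
def Sc {n : ℕ} (G : SimpleGraph (Fin n)) : Set (SimpleGraph (Fin n)) :=
  {G' | Nonempty (G ≃g G')}

lemma mem_typ (C : HER47.Cls) (n : ℕ) (G : SimpleGraph (Fin n)) (h : C (Fin n) G) :
    Sc G ∈ typ C n := ⟨G, h, rfl⟩

/-- a representative -/
noncomputable def rep (C : HER47.Cls) (n : ℕ) (S : typ C n) : SimpleGraph (Fin n) :=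
  S.2.choose

lemma rep_spec (C : HER47.Cls) (n : ℕ) (S : typ C n) :
    (S : Set (SimpleGraph (Fin n))) = {G' | Nonempty (rep C n S ≃g G')} :=
  S.2.choose_spec.2

lemma ex_fun (C : HER47.Cls) (n : ℕ) (G : SimpleGraph (Fin n)) (h : C (Fin n) G) :
    ∃ σ : Fin n → Fin n, G = (rep C n ⟨Sc G, mem_typ C n G h⟩).comap σ := by
  have h1 : G ∈ Sc G := ⟨SimpleGraph.Iso.refl⟩
  have h2 := rep_spec C n ⟨Sc G, mem_typ C n G h⟩
  have h3 : G ∈ {G' | Nonempty (rep C n ⟨Sc G, mem_typ C n G h⟩ ≃g G')} := by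
    rw [← h2]
    exact h1
  obtain ⟨e⟩ := h3
  refine ⟨e.symm, ?_⟩
  ext x y
  rw [SimpleGraph.comap_adj]
  exact e.symm.map_adj_iff.symm

end CTY_

theorem p_CTY : T_CTY := by
  intro C n
  have hinj : Function.Injective
      (fun G : {G : SimpleGraph (Fin n) // C (Fin n) G} =>
        (((⟨CTY_.Sc G.1, CTY_.mem_typ C n G.1 G.2⟩ : typ C n),
          (CTY_.ex_fun C n G.1 G.2).choose) : (typ C n) × (Fin n → Fin n))) := by
    intro G G' hG
    have h1 : (⟨CTY_.Sc G.1, CTY_.mem_typ C n G.1 G.2⟩ : typ C n) =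
        ⟨CTY_.Sc G'.1, CTY_.mem_typ C n G'.1 G'.2⟩ := congrArg Prod.fst hG
    have h2 : (CTY_.ex_fun C n G.1 G.2).choose = (CTY_.ex_fun C n G'.1 G'.2).choose :=
      congrArg Prod.snd hG
    apply Subtype.ext
    have h3 := (CTY_.ex_fun C n G.1 G.2).choose_spec
    have h4 := (CTY_.ex_fun C n G'.1 G'.2).choose_spec
    exact h3.trans ((congrArg₂ (fun (σ : Fin n → Fin n) (S : typ C n) =>
      (CTY_.rep C n S).comap σ) h2 h1).trans h4.symm)
  have h := Nat.card_le_card_of_injective _ hinj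
  rw [Nat.card_prod] at h
  have h3 : Nat.card (Fin n → Fin n) = n ^ n := by
    rw [Nat.card_eq_fintype_card]
    simp
  rw [h3] at h
  calc HER47.cn C n = Nat.card {G : SimpleGraph (Fin n) // C (Fin n) G} := rfl
    _ ≤ Nat.card (typ C n) * n ^ n := h
    _ = n ^ n * (typ C n).ncard := by rw [mul_comm, Nat.card_coe_set_eq]

end Pool.Agent.NRW
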