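import Pool.Agent.NRW.Targets

/-!
# NRW, EXT: the list of the `F j` with an isolated vertex
-/

set_option autoImplicit false

open Finset Classical

namespace Pool.Agent.NRW

open Pool.Agent Pool.Agent.Lib.Recon

namespace EXT_

/-- The permutation which sends the last vertex to `v` and the others according to `σ`. -/
noncomputable def perm {n : ℕ} (v : Fin (n + 1)) (σ : {x : Fin (n + 1) // x ≠ v} ≃ Fin n) :
    Fin (n + 1) ≃ Fin (n + 1) :=
  finSuccEquivLast.trans ((Equiv.optionCongr σ.symm).trans (Equiv.optionSubtypeNe v))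

theorem perm_last {n : ℕ} (v : Fin (n + 1)) (σ : {x : Fin (n + 1) // x ≠ v} ≃ Fin n) :
    perm v σ (Fin.last n) = v := by
  unfold perm
  rw [Equiv.trans_apply, Equiv.trans_apply, finSuccEquivLast_last]
  rfl

theorem perm_cast {n : ℕ} (v : Fin (n + 1)) (σ : {x : Fin (n + 1) // x ≠ v} ≃ Fin n)
    (a : Fin n) : perm v σ (Fin.castSucc a) = (σ.symm a).1 := by
  unfold perm
  rw [Equiv.trans_apply, Equiv.trans_apply, finSuccEquivLast_castSucc]
  rfl

end EXT_

open EXT_ in
theorem p_EXT : T_EXT := by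
  intro n J F
  refine ⟨fun j => (F j).map Fin.castSuccEmb, Fin.last n, fun H hH v => ?_⟩
  obtain ⟨j, σ, hσ⟩ := hH v
  refine ⟨j, perm v σ, perm_last v σ, fun x y hx hy => ?_⟩
  obtain ⟨a, rfl⟩ := Fin.exists_castSucc_eq.2 hx
  obtain ⟨b, rfl⟩ := Fin.exists_castSucc_eq.2 hy
  rw [perm_cast, perm_cast, hσ, Equiv.apply_symm_apply, Equiv.apply_symm_apply]
  exact SimpleGraph.map_adj_apply (f := Fin.castSuccEmb)

end Pool.Agent.NRW
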