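import Pool.Agent.NRW.Targets

/-!
# NRW-HCU: isomorphism types of a hereditary class (MP_552896_co)
-/

set_option autoImplicit false

open Finset Classical

namespace Pool.Agent.NRW

open Pool.Agent Pool.Agent.Lib.Recon

namespace HCU_

/-- isomorphic graphs have the same class -/
theorem cls_eq {n : ℕ} {G H : SimpleGraph (Fin n)} (α : Fin n ≃ Fin n)
    (h : ∀ x y, G.Adj x y ↔ H.Adj (α x) (α y)) :
    {G' : SimpleGraph (Fin n) | Nonempty (G ≃g G')} = {G' | Nonempty (H ≃g G')} := by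
  have ψ : G ≃g H := ⟨α, fun {x y} => (h x y).symm⟩
  ext G'
  constructor
  · rintro ⟨φ⟩
    exact ⟨ψ.symm.trans φ⟩
  · rintro ⟨φ⟩
    exact ⟨ψ.trans φ⟩

/-- every vertex-deleted subgraph of a member is isomorphic to a representative -/
theorem card_of {C : HER47.Cls} (hC : HER47.Her C) {n : ℕ} (F : typ C n → SimpleGraph (Fin n))
    (hF : ∀ j : typ C n, j.1 = {G' | Nonempty (F j ≃g G')}) (H : SimpleGraph (Fin (n + 1)))
    (hH : C (Fin (n + 1)) H) (v : Fin (n + 1)) :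
    ∃ j, ∃ σ : {x : Fin (n + 1) // x ≠ v} ≃ Fin n,
      ∀ x y, H.Adj x.1 y.1 ↔ (F j).Adj (σ x) (σ y) := by
  set e : Fin n ≃ {x : Fin (n + 1) // x ≠ v} := finSuccAboveEquiv v with he
  have hK : C (Fin n) (H.comap (e.toEmbedding.trans (Function.Embedding.subtype _))) :=
    hC (Fin n) (Fin (n + 1)) _ H hH
  set K : SimpleGraph (Fin n) := H.comap (e.toEmbedding.trans (Function.Embedding.subtype _))
    with hKd
  let j : typ C n := ⟨{G' | Nonempty (K ≃g G')}, K, hK, rfl⟩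
  have hKj : K ∈ j.1 := ⟨SimpleGraph.Iso.refl⟩
  rw [hF j] at hKj
  obtain ⟨φ⟩ := hKj
  refine ⟨j, e.symm.trans φ.symm.toEquiv, fun x y => ?_⟩
  have h1 : (F j).Adj (φ.symm (e.symm x)) (φ.symm (e.symm y)) ↔ K.Adj (e.symm x) (e.symm y) :=
    φ.symm.map_rel_iff
  have h2 : K.Adj (e.symm x) (e.symm y) ↔ H.Adj x.1 y.1 := by
    rw [hKd, SimpleGraph.comap_adj]
    simp
  exact (h1.trans h2).symm

end HCU_

open HCU_ in
theorem p_HCU (h1 : T_BNS) (h2 : T_EXT) : T_HCU := by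
  obtain ⟨A, hA⟩ := h1
  refine ⟨A, fun C hC n hn => ?_⟩
  let F : typ C n → SimpleGraph (Fin n) := fun j => j.2.choose
  have hF : ∀ j : typ C n, j.1 = {G' | Nonempty (F j ≃g G')} := fun j => j.2.choose_spec.2
  let H : btyp C (n + 1) → SimpleGraph (Fin (n + 1)) := fun i => i.2.choose
  have hH : ∀ i : btyp C (n + 1), C (Fin (n + 1)) (H i) ∧ ¬ HER47.Rec (H i) ∧
      i.1 = {G' | Nonempty (H i ≃g G')} := fun i => i.2.choose_spec
  obtain ⟨G, v0, hG⟩ := h2 n (typ C n) F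
  have : Fintype (typ C n) := Fintype.ofFinite _
  have : Fintype (btyp C (n + 1)) := Fintype.ofFinite _
  have hin : ∀ i, InL G v0 (H i) := fun i => hG (H i) fun v => card_of hC F hF (H i) (hH i).1 v
  have hpn : Pni H := by
    rintro i j hij ⟨α, hα⟩
    apply hij
    apply Subtype.ext
    rw [(hH i).2.2, (hH j).2.2]
    exact cls_eq α hα
  have h := hA (Fin (n + 1)) (btyp C (n + 1)) (typ C n) G v0 H
    (by rw [Fintype.card_fin]; omega) (fun i => (hH i).2.1) hin hpn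
  rw [Fintype.card_fin, ← Nat.card_eq_fintype_card, ← Nat.card_eq_fintype_card,
    Nat.card_coe_set_eq, Nat.card_coe_set_eq, mul_comm] at h
  exact h

end Pool.Agent.NRW
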