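import Pool.Agent.NRW.Targets

/-!
# NRW, block HIU: infinitely many `n`
-/

set_option autoImplicit false

namespace Pool.Agent.NRW

open Pool.Agent

theorem p_HIU (h1 : T_HCU) (h2 : T_CTY) : T_HIU := by
  obtain ⟨A1, hA1⟩ := h1
  refine ⟨A1 + 2, ?_⟩
  intro B C hC hbig N0
  by_contra hcon
  push Not at hcon
  -- the step
  have hstep : ∀ m : ℕ, N0 ≤ m + 1 → 2 ≤ m →
      (typ C (m + 1)).ncard ≤ (m + 1) ^ (B + A1) * (typ C m).ncard := by
    intro m hm h2m
    have e1 := hcon (m + 1) hm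
    have e2 := hA1 C hC m h2m
    calc (typ C (m + 1)).ncard ≤ (m + 1) ^ B * (btyp C (m + 1)).ncard := e1.le
      _ ≤ (m + 1) ^ B * ((m + 1) ^ A1 * (typ C m).ncard) := Nat.mul_le_mul_left _ e2
      _ = (m + 1) ^ (B + A1) * (typ C m).ncard := by
          rw [pow_add, mul_assoc]
  obtain ⟨N, hN⟩ : ∃ N : ℕ, N = max N0 3 := ⟨_, rfl⟩
  have hN0 : N0 ≤ N := by
    rw [hN]
    exact le_max_left _ _
  have hN3 : 3 ≤ N := by
    rw [hN]
    exact le_max_right _ _
  obtain ⟨K, hK⟩ : ∃ K : ℕ, K = (typ C N).ncard := ⟨_, rfl⟩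
  have hind : ∀ m : ℕ, N ≤ m → (typ C m).ncard ≤ m ^ ((B + A1) * m) * K := by
    intro m hm
    induction m, hm using Nat.le_induction with
    | base =>
      rw [← hK]
      exact Nat.le_mul_of_pos_left _ (Nat.pow_pos (by omega))
    | succ m hm ih =>
      have e1 := hstep m (by omega) (by omega)
      calc (typ C (m + 1)).ncard ≤ (m + 1) ^ (B + A1) * (typ C m).ncard := e1
        _ ≤ (m + 1) ^ (B + A1) * (m ^ ((B + A1) * m) * K) := Nat.mul_le_mul_left _ ih
        _ ≤ (m + 1) ^ (B + A1) * ((m + 1) ^ ((B + A1) * m) * K) :=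
            Nat.mul_le_mul_left _ (Nat.mul_le_mul_right _
              (Nat.pow_le_pow_left (Nat.le_succ m) _))
        _ = (m + 1) ^ ((B + A1) * (m + 1)) * K := by
            rw [← mul_assoc, ← pow_add]
            congr 2
            ring
  obtain ⟨n, hn, hcn⟩ := hbig (max N (K + 1))
  have hnN : N ≤ n := le_trans (le_max_left _ _) hn
  have hnK : K + 1 ≤ n := le_trans (le_max_right _ _) hn
  have hn0 : 0 < n := by omega
  have e3 : n ^ ((A1 + 2 + B) * n) ≤ n ^ n * (n ^ ((B + A1) * n) * K) :=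
    le_trans hcn (le_trans (h2 C n) (Nat.mul_le_mul_left _ (hind n hnN)))
  have e4 : n ^ ((A1 + 2 + B) * n) = n ^ n * (n ^ ((B + A1) * n) * n ^ n) := by
    rw [← pow_add, ← pow_add]
    congr 1
    ring
  rw [e4] at e3
  have e5 := Nat.le_of_mul_le_mul_left e3 (Nat.pow_pos hn0)
  have e6 := Nat.le_of_mul_le_mul_left e5 (Nat.pow_pos hn0)
  have e7 : n ≤ n ^ n := Nat.le_self_pow (by omega) n
  omega

end Pool.Agent.NRW
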