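import Pool.Agent.NRW.Targets

/-!
# NRW, LFE: from truncated clique lattices to graphs
-/

set_option autoImplicit false

open Finset Classical

namespace Pool.Agent.NRW

open Pool.Agent Pool.Agent.Lib.Recon Pool.Agent.RNB Pool.Agent.NRC Pool.Agent.NRP Pool.Agent.NRQ

namespace LFE_

theorem pair_clique {W : Type} (H : SimpleGraph W) {x y : W} (h : H.Adj x y) :
    H.IsClique ((({x, y} : Finset W)) : Set W) := by
  intro a ha b hb hab
  simp only [Finset.coe_insert, Finset.coe_singleton, Set.mem_insert_iff,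
    Set.mem_singleton_iff] at ha hb
  rcases ha with rfl | rfl <;> rcases hb with rfl | rfl
  · exact absurd rfl hab
  · exact h
  · exact h.symm
  · exact absurd rfl hab

end LFE_

open LFE_

/-- The order isomorphism gives an isomorphism of the graphs. -/
theorem p_LFE : T_LFE := by
  intro W U _ _ H F w hne
  obtain ⟨e⟩ := hne
  have hs : ∀ x : W, x ≠ w → ({x} : Finset W).Nonempty ∧
      H.IsClique (({x} : Finset W) : Set W) ∧ w ∉ ({x} : Finset W) := by
    intro x hx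
    refine ⟨Finset.singleton_nonempty x, by simp, ?_⟩
    simpa using Ne.symm hx
  have ht : ∀ y : U, ({y} : Finset U).Nonempty ∧ F.IsClique (({y} : Finset U) : Set U) :=
    fun y => ⟨Finset.singleton_nonempty y, by simp⟩
  have key : ∀ x : {x : W // x ≠ w}, ∃ y : U, e ⟨{x.1}, hs x.1 x.2⟩ = ⟨{y}, ht y⟩ := by
    intro x
    obtain ⟨y, hy⟩ := (e ⟨{x.1}, hs x.1 x.2⟩).2.1
    refine ⟨y, ?_⟩
    have hle : (⟨{y}, ht y⟩ : {t : Finset U // t.Nonempty ∧ F.IsClique (t : Set U)}) ≤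
        e ⟨{x.1}, hs x.1 x.2⟩ := by
      change ({y} : Finset U) ⊆ (e ⟨{x.1}, hs x.1 x.2⟩).1
      exact Finset.singleton_subset_iff.mpr hy
    have hle2 : e.symm ⟨{y}, ht y⟩ ≤ ⟨{x.1}, hs x.1 x.2⟩ := by
      rw [← e.le_iff_le, e.apply_symm_apply]
      exact hle
    have heq : e.symm ⟨{y}, ht y⟩ = ⟨{x.1}, hs x.1 x.2⟩ := by
      apply Subtype.ext
      have h1 : (e.symm ⟨{y}, ht y⟩).1 ⊆ {x.1} := hle2
      rcases Finset.subset_singleton_iff.mp h1 with h | h
      · exact absurd h (e.symm ⟨{y}, ht y⟩).2.1.ne_empty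
      · exact h
    rw [← heq, e.apply_symm_apply]
  have key' : ∀ y : U, ∃ x : {x : W // x ≠ w}, e.symm ⟨{y}, ht y⟩ = ⟨{x.1}, hs x.1 x.2⟩ := by
    intro y
    obtain ⟨x, hx⟩ := (e.symm ⟨{y}, ht y⟩).2.1
    have hxw : x ≠ w := fun h => (e.symm ⟨{y}, ht y⟩).2.2.2 (h ▸ hx)
    refine ⟨⟨x, hxw⟩, ?_⟩
    have hle : (⟨{x}, hs x hxw⟩ : {s : Finset W // s.Nonempty ∧
        H.IsClique (s : Set W) ∧ w ∉ s}) ≤ e.symm ⟨{y}, ht y⟩ := by
      change ({x} : Finset W) ⊆ (e.symm ⟨{y}, ht y⟩).1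
      exact Finset.singleton_subset_iff.mpr hx
    have hle2 : e ⟨{x}, hs x hxw⟩ ≤ ⟨{y}, ht y⟩ := by
      rw [← e.symm.le_iff_le, e.symm_apply_apply]
      exact hle
    have heq : e ⟨{x}, hs x hxw⟩ = ⟨{y}, ht y⟩ := by
      apply Subtype.ext
      have h1 : (e ⟨{x}, hs x hxw⟩).1 ⊆ {y} := hle2
      rcases Finset.subset_singleton_iff.mp h1 with h | h
      · exact absurd h (e ⟨{x}, hs x hxw⟩).2.1.ne_empty
      · exact h
    rw [← heq, e.symm_apply_apply]
  choose g hg using key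
  choose h hh using key'
  have hgh : ∀ y, g (h y) = y := by
    intro y
    have h1 := hg (h y)
    rw [← hh y, e.apply_symm_apply] at h1
    have h2 : ({y} : Finset U) = {g (h y)} := congrArg Subtype.val h1
    exact (Finset.singleton_injective h2).symm
  have hhg : ∀ x, h (g x) = x := by
    intro x
    have h1 := hh (g x)
    rw [← hg x, e.symm_apply_apply] at h1
    have h2 : ({x.1} : Finset W) = {(h (g x)).1} := congrArg Subtype.val h1
    exact (Subtype.ext (Finset.singleton_injective h2)).symm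
  refine ⟨⟨g, h, hhg, hgh⟩, ?_⟩
  intro x y
  change H.Adj x.1 y.1 ↔ F.Adj (g x) (g y)
  constructor
  · intro hxy
    have hp : ({x.1, y.1} : Finset W).Nonempty ∧
        H.IsClique ((({x.1, y.1} : Finset W)) : Set W) ∧ w ∉ ({x.1, y.1} : Finset W) := by
      refine ⟨⟨x.1, by simp⟩, pair_clique H hxy, ?_⟩
      rw [Finset.mem_insert, Finset.mem_singleton]
      rintro (h1 | h1)
      · exact x.2 h1.symm
      · exact y.2 h1.symm
    have h1 : e ⟨{x.1}, hs x.1 x.2⟩ ≤ e ⟨{x.1, y.1}, hp⟩ := by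
      rw [e.le_iff_le]
      change ({x.1} : Finset W) ⊆ {x.1, y.1}
      simp
    have h2 : e ⟨{y.1}, hs y.1 y.2⟩ ≤ e ⟨{x.1, y.1}, hp⟩ := by
      rw [e.le_iff_le]
      change ({y.1} : Finset W) ⊆ {x.1, y.1}
      simp
    rw [hg x] at h1
    rw [hg y] at h2
    have h3 : g x ∈ (e ⟨{x.1, y.1}, hp⟩).1 := h1 (Finset.mem_singleton_self _)
    have h4 : g y ∈ (e ⟨{x.1, y.1}, hp⟩).1 := h2 (Finset.mem_singleton_self _)
    refine (e ⟨{x.1, y.1}, hp⟩).2.2 h3 h4 ?_
    intro h5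
    have h6 : x = y := by rw [← hhg x, ← hhg y, h5]
    exact hxy.ne (congrArg Subtype.val h6)
  · intro hxy
    have hp : ({g x, g y} : Finset U).Nonempty ∧
        F.IsClique ((({g x, g y} : Finset U)) : Set U) :=
      ⟨⟨g x, by simp⟩, pair_clique F hxy⟩
    have h1 : e.symm ⟨{g x}, ht (g x)⟩ ≤ e.symm ⟨{g x, g y}, hp⟩ := by
      rw [e.symm.le_iff_le]
      change ({g x} : Finset U) ⊆ {g x, g y}
      simp
    have h2 : e.symm ⟨{g y}, ht (g y)⟩ ≤ e.symm ⟨{g x, g y}, hp⟩ := by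
      rw [e.symm.le_iff_le]
      change ({g y} : Finset U) ⊆ {g x, g y}
      simp
    rw [← hg x, e.symm_apply_apply] at h1
    rw [← hg y, e.symm_apply_apply] at h2
    have h3 : x.1 ∈ (e.symm ⟨{g x, g y}, hp⟩).1 := h1 (Finset.mem_singleton_self _)
    have h4 : y.1 ∈ (e.symm ⟨{g x, g y}, hp⟩).1 := h2 (Finset.mem_singleton_self _)
    refine (e.symm ⟨{g x, g y}, hp⟩).2.2.1 h3 h4 ?_
    intro h5
    have h6 : x = y := Subtype.ext h5
    exact hxy.ne (congrArg g h6)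

end Pool.Agent.NRW
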