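import Pool.Agent.NRW.Targets

/-!
# NRW, LFT: truncated clique lattices
-/

set_option autoImplicit false

open Finset Classical

namespace Pool.Agent.NRW

open Pool.Agent Pool.Agent.Lib.Recon Pool.Agent.RNB Pool.Agent.NRC Pool.Agent.NRP Pool.Agent.NRQ

theorem p_LFT (h1 : T_BNS) (h2 : T_LFE) (h3 : T_EXT) : T_LFT := by
  obtain ⟨A, hA⟩ := h1
  refine ⟨A, ?_⟩
  intro n J ι _ _ F H hn hrec hcard hiso
  obtain ⟨G, v0, hG⟩ := h3 n J F
  have hInL : ∀ i, InL G v0 (H i) := by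
    intro i
    refine hG (H i) fun v => ?_
    obtain ⟨j, hj⟩ := hcard i v
    exact ⟨j, h2 (Fin (n + 1)) (Fin n) (H i) (F j) v hj⟩
  have hP : Pni H := by
    intro i j hij hα
    exact hiso i j hij (orderIso_of_iso (H i) (H j) hα)
  have h := hA (Fin (n + 1)) ι J G v0 H (by rw [Fintype.card_fin]; omega) hrec hInL hP
  rwa [Fintype.card_fin] at h

end Pool.Agent.NRW
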