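import Pool.Agent.NRW.Targets

/-!
# NRW: near twins, counting codes
-/

set_option autoImplicit false

open Finset Classical

namespace Pool.Agent.NRW

open Pool.Agent Pool.Agent.Lib.Recon Pool.Agent.RNB Pool.Agent.NRC Pool.Agent.NRP Pool.Agent.NRQ

namespace NES_

/-- a near twin pair gives a code of an isomorphic copy -/
theorem code {V J : Type} [Fintype V] {G : J → SimpleGraph V} {v0 : V} {H : SimpleGraph V} {k : ℕ}
    (hL : InL G v0 H) {u v : V} (huv : u ≠ v) (hd : (dset H u v).card ≤ k) :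
    ∃ (j : J) (b : V) (c : Bool) (t : Fin k → V) (σ : V ≃ V),
      RNum.Cd (G j) (H.comap σ.symm) v0 b (c = true) t := by
  obtain ⟨j, hj⟩ := hL u
  obtain ⟨σ, h1, h2⟩ := hj.symm
  have hs : σ.symm v0 = u := by rw [← h1, Equiv.symm_apply_apply]
  have hne : v0 ≠ σ v := fun h => huv (σ.injective (h1.trans h))
  have hc : CardIso (G j) (H.comap σ.symm) v0 v0 := by
    refine ⟨Equiv.refl V, rfl, fun x y hx hy => ?_⟩
    have hx' : σ.symm x ≠ u := fun h => hx (by rw [← h1, ← h, Equiv.apply_symm_apply])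
    have hy' : σ.symm y ≠ u := fun h => hy (by rw [← h1, ← h, Equiv.apply_symm_apply])
    have h3 := h2 _ _ hx' hy'
    rw [Equiv.apply_symm_apply, Equiv.apply_symm_apply] at h3
    rw [Equiv.refl_apply, Equiv.refl_apply, SimpleGraph.comap_adj]
    exact h3.symm
  have hd' : (dset (H.comap σ.symm) v0 (σ v)).card ≤ k := by
    refine le_trans ?_ hd
    refine Finset.card_le_card_of_injOn (fun x => σ.symm x) ?_
      (fun x _ y _ h => σ.symm.injective h)
    intro w hw
    obtain ⟨ha, hb, hw'⟩ := mem_dset.1 (Finset.mem_coe.1 hw)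
    refine Finset.mem_coe.2 (mem_dset.2 ⟨?_, ?_, ?_⟩)
    · exact fun h => ha (by rw [← h1, ← h, Equiv.apply_symm_apply])
    · exact fun h => hb (by rw [← h, Equiv.apply_symm_apply])
    · rw [SimpleGraph.comap_adj, SimpleGraph.comap_adj, hs, Equiv.symm_apply_apply] at hw'
      exact hw'
  obtain ⟨b, c, t, h⟩ := RNum.exists_cd hne hc hd'
  exact ⟨j, b, c, t, σ, h⟩

end NES_

theorem p_NES : T_NES := by
  intro V ι J _ _ _ G v0 H k hL hne hn
  have h : ∀ i, ∃ (j : J) (b : V) (c : Bool) (t : Fin k → V) (σ : V ≃ V),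
      RNum.Cd (G j) ((H i).comap σ.symm) v0 b (c = true) t := by
    intro i
    obtain ⟨u, v, huv, hd⟩ := hn i
    exact NES_.code (hL i) huv hd
  choose j b c t σ hcd using h
  have hinj : Function.Injective (fun i => (j i, b i, c i, t i)) := by
    intro i i' hij
    by_contra hne'
    simp only [Prod.mk.injEq] at hij
    obtain ⟨h1, h2, h3, h4⟩ := hij
    have h5 := hcd i'
    rw [← h1, ← h2, ← h3, ← h4] at h5
    obtain ⟨α, hα⟩ := RNum.cd_iso (hcd i) h5
    refine hne i i' hne' ⟨((σ i).trans α).trans (σ i').symm, fun x y => ?_⟩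
    have h6 := hα (σ i x) (σ i y)
    rw [SimpleGraph.comap_adj, SimpleGraph.comap_adj, Equiv.symm_apply_apply,
      Equiv.symm_apply_apply] at h6
    exact h6
  have h1 := Fintype.card_le_of_injective _ hinj
  refine h1.trans (le_of_eq ?_)
  simp only [Fintype.card_prod, Fintype.card_bool, Fintype.card_fun, Fintype.card_fin]
  ring

end Pool.Agent.NRW
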