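import Pool.Agent.NRP.All
import Pool.Agent.NRM.P_RCM
import Pool.Agent.NRW.P_AVS
import Pool.Agent.NRW.P_NES
import Pool.Agent.NRW.P_BNS
import Pool.Agent.NRW.P_LFE
import Pool.Agent.NRW.P_EXT
import Pool.Agent.NRW.P_LFT
import Pool.Agent.NRW.P_HCU
import Pool.Agent.NRW.P_CTY
import Pool.Agent.NRW.P_HIU
import Pool.Agent.NRW.Final
import Pool.Agent.NRW.FinalH

/-!
# NRW: composition
-/

set_option autoImplicit false

namespace Pool.Agent.NRW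

open Pool.Agent

theorem a_BNS : T_BNS := p_BNS p_AVS p_NES NRP.a_HLQ NRP.p_NBQ NRM.p_RCM NRP.c_DCQ NRQ.p_EQQ
  NRQ.p_DC1 NRQ.p_EQ1

theorem a_LFT : T_LFT := p_LFT a_BNS p_LFE p_EXT

theorem a_HCU : T_HCU := p_HCU a_BNS p_EXT

theorem a_HIU : T_HIU := p_HIU a_HCU p_CTY

end Pool.Agent.NRW
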