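import Pool.Agent.NRP.TargetsF
import Pool.Agent.NRM.Targets
import Pool.Agent.NRC.P_NPA
import Pool.Agent.NRR.Targets
import Pool.Agent.RNum.Base

/-!
# NRW: graphs whose vertex-deleted subgraphs are in a given list (MP_552896_co)

Project NRW (owner helper48). There is a constant `A` such that for every list of `m` graphs with
`n - 1` vertices at most `m * n ^ A` non-reconstructible graphs with `n` vertices have all their
vertex-deleted subgraphs in the list; the same for truncated clique lattices. One file per target: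
`Pool/Agent/NRW/P_X.lean`, theorem `Pool.Agent.NRW.p_X (other targets) : T_X`; the targets after
`from` are the hypotheses.
-/

set_option autoImplicit false

open Finset Classical

namespace Pool.Agent.NRW

open Pool.Agent Pool.Agent.Lib.Recon Pool.Agent.RNB Pool.Agent.NRC Pool.Agent.NRP Pool.Agent.NRQ

/-- every vertex-deleted subgraph of `H` is one of the `G j - v0` -/
def InL {V J : Type} (G : J → SimpleGraph V) (v0 : V) (H : SimpleGraph V) : Prop :=
  ∀ v, ∃ j, CardIso (G j) H v0 v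

/-- the `H i` are pairwise non-isomorphic -/
def Pni {V ι : Type} (H : ι → SimpleGraph V) : Prop :=
  ∀ i j, i ≠ j → ¬ ∃ α : V ≃ V, ∀ x y, (H i).Adj x y ↔ (H j).Adj (α x) (α y)

/-- AVS: averaging (edit of `Pool/Agent/NRQ/P_AVQ.lean`). PROOF. `P_AVQ.lean` with these changes.
`v i` as there; `j i` with `CardIso (G (j i)) (H i) v0 (v i)`, so (`CardIso.symm`) `σ i (v i) = v0`
and `(H i).Adj x y ↔ (G (j i)).Adj (σ i x) (σ i y)` for `x, y ≠ v i`. `K i = (H i).comap (σ
i).symm`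
agrees with `G (j i)` off `v0`, and `P (H i) A (v i)` gives `P (K i) (A.image (σ i)) v0`. For a
fixed `p` the `i` with `P (K i) (Bi ∅ p.2 p.1) v0` are at most `B * |J|`
(`card_le_mul_card_image_of_maps_to` with `f = j`, `t = univ : Finset J`; for `j i = t` the `K i`
are different graphs as in the hypothesis for `F = G t`, `v = v0`). Double counting:
`|ι| |Ω| ≤ 2 n B |J| |Ω|`. -/
def T_AVS : Prop := ∀ (V ι J : Type) [Fintype V] [Fintype ι] [Fintype J] (G : J → SimpleGraph V)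
  (v0 : V) (H : ι → SimpleGraph V) (N B : ℕ) (P : SimpleGraph V → Finset V → V → Prop),
  1 ≤ N → (∀ i, InL G v0 (H i)) → Pni H →
  (∀ (H K : SimpleGraph V) (σ : V ≃ V) (A : Finset V) (v : V),
    (∀ x y, H.Adj x y ↔ K.Adj (σ x) (σ y)) → P H A v → P K (A.image σ) (σ v)) →
  (∀ (F : SimpleGraph V) (A : Finset V) (v : V), (univ.filter (fun K : SimpleGraph V =>
    (∀ x y, x ≠ v → y ≠ v → (K.Adj x y ↔ F.Adj x y)) ∧ P K A v)).card ≤ B) →
  (∀ i, Fintype.card (Fin N × (Fin N → V)) ≤ 2 * (univ.filter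
    (fun p : Fin N × (Fin N → V) => ∃ v, P (H i) (Bi ∅ p.2 p.1) v)).card) →
  Fintype.card ι ≤ 2 * Fintype.card V * Fintype.card J * B

/-- NES: near twins. PROOF. For `u ≠ v` with `|dset (H i) u v| ≤ k` take `j` with
`CardIso (G j) (H i) v0 u`, so (`CardIso.symm`) a `σ` with `σ u = v0`; `K i = (H i).comap σ.symm`
(see `hK`, `hinj` in `Pool/Agent/NRQ/P_AVQ.lean`) is isomorphic to `H i`,
`CardIso (G j) (K i) v0 v0` (with the identity) and `dset (K i) v0 (σ v) = (dset (H i) u v).image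
σ`. `RNum.exists_cd` (`G j`, `K i`, `v0`, `σ v`) gives `b, c, t` with
`RNum.Cd (G j) (K i) v0 b (c = true) t`, and by `RNum.cd_iso` the map `i ↦ (j, b, c, t)` is
injective: `|ι| ≤ |J| * n * 2 * n^k` (as in `RNum.card_le_codes`). -/
def T_NES : Prop := ∀ (V ι J : Type) [Fintype V] [Fintype ι] [Fintype J] (G : J → SimpleGraph V)
  (v0 : V) (H : ι → SimpleGraph V) (k : ℕ), (∀ i, InL G v0 (H i)) → Pni H →
  (∀ i, ∃ u v, u ≠ v ∧ (dset (H i) u v).card ≤ k) →
  Fintype.card ι ≤ 2 * Fintype.card J * Fintype.card V ^ (k + 1)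

/-- BNS (from AVS, NES, NRP.T_HLQ, NRP.T_NBQ, NRM.T_RCM, NRQ.T_DCQ, NRQ.T_EQQ, NRQ.T_DC1,
NRQ.T_EQ1). PROOF. Edit of `Pool/Agent/NRP/P_BIQ.lean`. `n ≥ n0`: `ι1` = the `i` with `u ≠ v`,
`|dset (H i) u v| ≤ KK`: `|ι1| ≤ 2 |J| n^(KK + 1)` (NES for the subtype). The other `i`: by RCM
(`3 ≤ n`) there is `H'` with `CardIso (H i) H' v v` for all `v` and `H' ≇ H i`, HLQ for
`H i`, `H'`, and AVS with `P K A v = Gq K A v`, `B = NN n` exactly as in `P_BIQ.lean` gives
`|ι2| ≤ 2 n |J| NN n ≤ 2 |J| n^(C + 1)`. So `|ι| ≤ |J| n^(KK + C + 4)`. `n < n0`: if `ι` is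
nonempty then so is `J`, and `|ι| ≤ 2^(n * n) ≤ n^(n0 * n0)` (`ALQ_.card_le`, end of
`Pool/Agent/NRP/P_ALQ.lean`). -/
def T_BNS : Prop := ∃ A : ℕ, ∀ (V ι J : Type) [Fintype V] [Fintype ι] [Fintype J]
  (G : J → SimpleGraph V) (v0 : V) (H : ι → SimpleGraph V), 3 ≤ Fintype.card V →
  (∀ i, ¬ HER47.Rec (H i)) → (∀ i, InL G v0 (H i)) → Pni H →
  Fintype.card ι ≤ Fintype.card J * Fintype.card V ^ A

/-- LFE. PROOF. As `cardIso_of_orderIso` in `Pool/Agent/Lib/Recon/CliquePoset.lean`: the minimal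
elements of the posets are the singletons, so the order isomorphism gives a bijection `σ`, and `x`,
`y` are adjacent iff there is an element above `{x}` and `{y}` (`{x, y}`; a clique with `x`, `y`
has `x`, `y` adjacent for `x ≠ y`; for `x = y` both sides are false). -/
def T_LFE : Prop := ∀ (W U : Type) [Fintype W] [Fintype U] (H : SimpleGraph W)
  (F : SimpleGraph U) (w : W),
  Nonempty ({s : Finset W // s.Nonempty ∧ H.IsClique (s : Set W) ∧ w ∉ s} ≃o
    {t : Finset U // t.Nonempty ∧ F.IsClique (t : Set U)}) →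
  ∃ σ : {x : W // x ≠ w} ≃ U, ∀ x y, H.Adj x.1 y.1 ↔ F.Adj (σ x) (σ y)

/-- EXT: the list of the `F j` with an isolated vertex. PROOF. `v0 = Fin.last n`;
`(G j).Adj x y` iff `x = castSucc a`, `y = castSucc b` with `(F j).Adj a b`
(`(F j).map Fin.castSuccEmb`). For `v` and the `j`, `σ : {x // x ≠ v} ≃ Fin n` of the hypothesis
let `τ` be the permutation of `Fin (n + 1)` with `τ v = v0` and `τ x = castSucc (σ x)` for
`x ≠ v`: it certifies `CardIso H (G j) v v0` (`CardIso.symm`). -/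
def T_EXT : Prop := ∀ (n : ℕ) (J : Type) (F : J → SimpleGraph (Fin n)),
  ∃ (G : J → SimpleGraph (Fin (n + 1))) (v0 : Fin (n + 1)), ∀ H : SimpleGraph (Fin (n + 1)),
    (∀ v, ∃ j, ∃ σ : {x : Fin (n + 1) // x ≠ v} ≃ Fin n,
      ∀ x y, H.Adj x.1 y.1 ↔ (F j).Adj (σ x) (σ y)) → InL G v0 H

/-- LFT (from BNS, LFE, EXT): truncated clique lattices. PROOF. LFE and EXT give `InL G v0 (H i)`;
`Pni H` by `orderIso_of_iso`; BNS with `V = Fin (n + 1)`. -/
def T_LFT : Prop := ∃ A : ℕ, ∀ (n : ℕ) (J ι : Type) [Fintype J] [Fintype ι]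
  (F : J → SimpleGraph (Fin n)) (H : ι → SimpleGraph (Fin (n + 1))), 2 ≤ n →
  (∀ i, ¬ HER47.Rec (H i)) →
  (∀ i v, ∃ j, Nonempty ({s : Finset (Fin (n + 1)) // s.Nonempty ∧
      (H i).IsClique (s : Set (Fin (n + 1))) ∧ v ∉ s} ≃o
    {t : Finset (Fin n) // t.Nonempty ∧ (F j).IsClique (t : Set (Fin n))})) →
  (∀ i j, i ≠ j → ¬ Nonempty ({s : Finset (Fin (n + 1)) // s.Nonempty ∧
      (H i).IsClique (s : Set (Fin (n + 1)))} ≃o
    {t : Finset (Fin (n + 1)) // t.Nonempty ∧ (H j).IsClique (t : Set (Fin (n + 1)))})) →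
  Fintype.card ι ≤ Fintype.card J * (n + 1) ^ A

/-! ### isomorphism types in hereditary classes -/

/-- the isomorphism types of the members of `C` on `{0, ..., n-1}` -/
def typ (C : HER47.Cls) (n : ℕ) : Set (Set (SimpleGraph (Fin n))) :=
  {S | ∃ G : SimpleGraph (Fin n), C (Fin n) G ∧ S = {G' | Nonempty (G ≃g G')}}

/-- the isomorphism types of the non-reconstructible members of `C` on `{0, ..., n-1}` -/
def btyp (C : HER47.Cls) (n : ℕ) : Set (Set (SimpleGraph (Fin n))) :=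
  {S | ∃ G : SimpleGraph (Fin n), C (Fin n) G ∧ ¬ HER47.Rec G ∧
    S = {G' | Nonempty (G ≃g G')}}

/-- HCU (from BNS, EXT). PROOF. `J` = the subtype of `typ C n`, `F j` a member of `C` in the class
`j` (`Exists.choose`); `ι` = the subtype of `btyp C (n + 1)`, `H i` a non-reconstructible member of
`C` in the class `i`; `Pni H` since isomorphic graphs have the same class. For a vertex `v` of
`H i` let `σ : {x // x ≠ v} ≃ Fin n` (`finSuccAboveEquiv` or `Fintype.equivOfCardEq`); the graph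
`(H i).comap (fun a => (σ.symm a).1)` is in `C` (`Her C`), so it is isomorphic to `F j` for its
class `j`: the hypothesis of EXT. BNS: `|ι| ≤ |J| (n + 1)^A` (`Set.Finite` and
`Nat.card_coe_set_eq`, `Nat.card_eq_fintype_card`). -/
def T_HCU : Prop := ∃ A : ℕ, ∀ C : HER47.Cls, HER47.Her C → ∀ n : ℕ, 2 ≤ n →
  (btyp C (n + 1)).ncard ≤ (n + 1) ^ A * (typ C n).ncard

/-- CTY. PROOF. Choose a representative `r S` of every class `S ∈ typ C n`. The map
`(S, σ) ↦ (r S).comap σ` for `σ : Fin n → Fin n` (or permutations) covers all members of `C`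
(`C` itself is a union of classes as `Her C`): at most `|typ C n| * n^n`. -/
def T_CTY : Prop := ∀ (C : HER47.Cls) (n : ℕ), HER47.cn C n ≤ n ^ n * (typ C n).ncard

/-- HIU (from HCU, CTY): infinitely many `n`. PROOF. `A = A1 + 2` (`A1` from HCU), `B` given.
Otherwise there is `N ≥ 3` with `|typ C m| < m^B |btyp C m| ≤ m^(B + A1) |typ C (m - 1)|` for all
`m ≥ N`, so (induction) `|typ C m| ≤ m^((B + A1) m) * K` with `K = |typ C N|`,
and `cn C m ≤ m^((B + A1 + 1) m) * K` (CTY), which contradicts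
`cn C m ≥ m^((B + A1 + 2) m)` for some `m > K`, `m ≥ N`. -/
def T_HIU : Prop := ∃ A : ℕ, ∀ (B : ℕ) (C : HER47.Cls), HER47.Her C →
  (∀ N : ℕ, ∃ n : ℕ, N ≤ n ∧ n ^ ((A + B) * n) ≤ HER47.cn C n) → ∀ N : ℕ, ∃ n : ℕ, N ≤ n ∧
    n ^ B * (btyp C n).ncard ≤ (typ C n).ncard

end Pool.Agent.NRW
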